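import Mathlib
import Pool.Agent.helper45.Sem.Inst

/-!
# Linearisation of systems of triples by the Hales-Jewett theorem (partite construction)
-/

universe u

open Pool.Agent.helper45.Sem

namespace Pool.Agent.SEM

namespace LinHJ

variable {T : Type u}

/-- a system of triples over `T` -/
structure Sys (C : Set (Fin 3 → T)) (c : Fin 3 → T) where
  K : Inst
  p : K.V → T
  lin : Lin K
  hpr : ∀ v k, K.pr v = some k → p v = c k
  hpr' : ∀ v k, p v = c k → K.pr v = some k
  hC : ∀ e, (fun i => p (K.tri e i)) ∈ C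
  hinj : ∀ e, Function.Injective fun i => p (K.tri e i)
  huniq : ∀ e e' i i', K.tri e i = K.tri e' i' → (K.pr (K.tri e i)).isSome → e = e'

/-- no colouring is constant on the fibres over `S` -/
def Good {C : Set (Fin 3 → T)} {c : Fin 3 → T} (A : Sys C c) (S : Finset T) : Prop :=
  ¬ ∃ χ : A.K.V → Fin 3, (∀ v k, A.K.pr v = some k → χ v = k) ∧
    (∀ e, ¬ Function.Injective fun i => χ (A.K.tri e i)) ∧
    ∀ v w, A.p v = A.p w → A.p v ∈ S → χ v = χ w

theorem exists_start (C : Set (Fin 3 → T)) (hC : C.Finite) (c : Fin 3 → T)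
    (hc : Function.Injective c)
    (hU : ¬ ∃ χ : T → Fin 3, (∀ k, χ (c k) = k) ∧
      ∀ e ∈ C, ¬ Function.Injective fun i => χ (e i)) :
    ∃ (A : Sys C c) (S : Finset T), (∀ k, c k ∉ S) ∧ Good A S := by
  classical
  have hfin : {e | e ∈ C ∧ Function.Injective e}.Finite := hC.subset fun e he => he.1
  obtain ⟨n, ⟨eqv⟩⟩ := hfin.to_subtype.exists_equiv_fin
  let f : Fin n → Fin 3 → T := fun m => (eqv.symm m).1
  have hf : ∀ m, f m ∈ C ∧ Function.Injective (f m) := fun m => (eqv.symm m).2
  have hsurj : ∀ e ∈ C, Function.Injective e → ∃ m, f m = e := by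
    intro e he hi
    refine ⟨eqv ⟨e, he, hi⟩, ?_⟩
    change (eqv.symm (eqv ⟨e, he, hi⟩)).1 = e
    rw [Equiv.symm_apply_apply]
  let pr : Fin n × Fin 3 → Option (Fin 3) := fun v =>
    if h : ∃ k, f v.1 v.2 = c k then some h.choose else none
  have hpr : ∀ v k, pr v = some k → f v.1 v.2 = c k := by
    intro v k h
    by_cases hk : ∃ k, f v.1 v.2 = c k
    · have : pr v = some hk.choose := dif_pos hk
      rw [this] at h
      have h2 : hk.choose = k := Option.some_injective _ h
      rw [← h2]
      exact hk.choose_spec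
    · have : pr v = none := dif_neg hk
      rw [this] at h
      simp at h
  have hpr' : ∀ v k, f v.1 v.2 = c k → pr v = some k := by
    intro v k h
    have hk : ∃ k, f v.1 v.2 = c k := ⟨k, h⟩
    have h1 : pr v = some hk.choose := dif_pos hk
    rw [h1]
    congr 1
    exact hc (hk.choose_spec.symm.trans h)
  let K : Inst :=
    { V := Fin n × Fin 3
      E := Fin n
      tri := fun e i => (e, i)
      pr := pr
      finV := inferInstance
      finE := inferInstance }
  let A : Sys C c :=
    { K := K
      p := fun v => f v.1 v.2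
      lin := ⟨fun e i j h => (Prod.ext_iff.1 h).2, fun e e' i j i' j' _ h _ => (Prod.ext_iff.1 h).1⟩
      hpr := hpr
      hpr' := hpr'
      hC := fun e => (hf e).1
      hinj := fun e => (hf e).2
      huniq := fun e e' i i' h _ => (Prod.ext_iff.1 h).1 }
  have hS : (Set.range (fun v : Fin n × Fin 3 => f v.1 v.2) \ Set.range c).Finite :=
    (Set.finite_range _).subset Set.sdiff_subset
  refine ⟨A, hS.toFinset, ?_, ?_⟩
  · intro k hk
    rw [Set.Finite.mem_toFinset] at hk
    exact hk.2 ⟨k, rfl⟩
  · rintro ⟨χ, h1, h2, h3⟩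
    apply hU
    let χ' : T → Fin 3 := fun t =>
      if h : ∃ k, t = c k then h.choose
      else if h' : ∃ v : Fin n × Fin 3, f v.1 v.2 = t then χ h'.choose else 0
    have hχc : ∀ k, χ' (c k) = k := by
      intro k
      have hk : ∃ l, c k = c l := ⟨k, rfl⟩
      have : χ' (c k) = hk.choose := dif_pos hk
      rw [this]
      exact (hc hk.choose_spec).symm
    have hχ : ∀ v : Fin n × Fin 3, χ' (f v.1 v.2) = χ v := by
      intro v
      by_cases hk : ∃ k, f v.1 v.2 = c k
      · obtain ⟨k, hk⟩ := hk
        rw [hk, hχc]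
        exact (h1 v k (hpr' v k hk)).symm
      · have h' : ∃ w : Fin n × Fin 3, f w.1 w.2 = f v.1 v.2 := ⟨v, rfl⟩
        have h4 : χ' (f v.1 v.2) = χ h'.choose := by
          change dite _ _ _ = _
          rw [dif_neg hk, dif_pos h']
        rw [h4]
        apply h3
        · exact h'.choose_spec
        · rw [Set.Finite.mem_toFinset]
          refine ⟨⟨h'.choose, rfl⟩, ?_⟩
          rintro ⟨k, hk'⟩
          apply hk
          refine ⟨k, ?_⟩
          rw [hk']
          exact h'.choose_spec.symm
    refine ⟨χ', hχc, ?_⟩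
    intro e he hinj
    by_cases hi : Function.Injective e
    · obtain ⟨m, rfl⟩ := hsurj e he hi
      apply h2 m
      intro i j hij
      apply hinj
      change χ' (f m i) = χ' (f m j)
      rw [hχ (m, i), hχ (m, j)]
      exact hij
    · apply hi
      intro i j hij
      apply hinj
      change χ' (e i) = χ' (e j)
      rw [hij]

open Classical in
theorem exists_step {C : Set (Fin 3 → T)} {c : Fin 3 → T} (A : Sys C c) (S : Finset T)
    (i : T) (hi : ∀ k, c k ≠ i) (hA : Good A (insert i S)) : ∃ B : Sys C c, Good B S := by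
  obtain ⟨K, p, lin, hpr, hpr', hC, hinj, huniq⟩ := A
  have := K.finV
  have := K.finE
  obtain ⟨ι, hι, hHJ⟩ :=
    Combinatorics.Line.exists_mono_in_high_dimension {v : K.V // p v = i} (Fin 3)
  have hLfin : Finite (Combinatorics.Line {v : K.V // p v = i} ι) := by
    refine Finite.of_injective (fun l : Combinatorics.Line {v : K.V // p v = i} ι => l.idxFun) ?_
    intro l l' h
    cases l
    cases l'
    congr
  let V' : Type := ({v : K.V // p v ≠ i} × Combinatorics.Line {v : K.V // p v = i} ι) ⊕
    (ι → {v : K.V // p v = i})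
  let emb : Combinatorics.Line {v : K.V // p v = i} ι → K.V → V' := fun l v =>
    if h : p v = i then Sum.inr (l ⟨v, h⟩) else Sum.inl (⟨v, h⟩, l)
  have emb1 : ∀ l v (h : p v = i), emb l v = Sum.inr (l ⟨v, h⟩) := fun l v h => dif_pos h
  have emb2 : ∀ l v (h : p v ≠ i), emb l v = Sum.inl (⟨v, h⟩, l) := fun l v h => dif_neg h
  let pr' : V' → Option (Fin 3) := fun x =>
    match x with
    | Sum.inl q => K.pr q.1.1
    | Sum.inr _ => none
  let p' : V' → T := fun x =>
    match x with
    | Sum.inl q => p q.1.1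
    | Sum.inr _ => i
  have hpemb : ∀ l v, p' (emb l v) = p v := by
    intro l v
    by_cases h : p v = i
    · rw [emb1 l v h]
      exact h.symm
    · rw [emb2 l v h]
  have hne : ∀ v k, K.pr v = some k → p v ≠ i := by
    intro v k h h'
    exact hi k ((hpr v k h).symm.trans h')
  have hembinj : ∀ l, Function.Injective (emb l) := by
    intro l v w h
    by_cases hv : p v = i
    · by_cases hw : p w = i
      · rw [emb1 l v hv, emb1 l w hw] at h
        have h2 : l ⟨v, hv⟩ = l ⟨w, hw⟩ := Sum.inr_injective h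
        obtain ⟨j, hj⟩ := l.proper
        have h3 := congrFun h2 j
        rw [Combinatorics.Line.apply_none l _ j hj, Combinatorics.Line.apply_none l _ j hj] at h3
        exact congrArg Subtype.val h3
      · rw [emb1 l v hv, emb2 l w hw] at h
        cases h
    · by_cases hw : p w = i
      · rw [emb2 l v hv, emb1 l w hw] at h
        cases h
      · rw [emb2 l v hv, emb2 l w hw] at h
        have h2 := Sum.inl_injective h
        exact congrArg Subtype.val (Prod.ext_iff.1 h2).1
  have hsep : ∀ l l' v w, p v ≠ i → emb l v = emb l' w → l = l' ∧ v = w := by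
    intro l l' v w hv h
    by_cases hw : p w = i
    · rw [emb2 l v hv, emb1 l' w hw] at h
      cases h
    · rw [emb2 l v hv, emb2 l' w hw] at h
      have h2 := Sum.inl_injective h
      exact ⟨(Prod.ext_iff.1 h2).2, congrArg Subtype.val (Prod.ext_iff.1 h2).1⟩
  let K' : Inst :=
    { V := V'
      E := K.E × Combinatorics.Line {v : K.V // p v = i} ι
      tri := fun q j => emb q.2 (K.tri q.1 j)
      pr := pr'
      finV := by
        change Finite (({v : K.V // p v ≠ i} × Combinatorics.Line {v : K.V // p v = i} ι) ⊕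
          (ι → {v : K.V // p v = i}))
        infer_instance
      finE := inferInstance }
  have hlin : Lin K' := by
    constructor
    · rintro ⟨e, l⟩ a b h
      exact lin.inj e (hembinj l h)
    · rintro ⟨e, l⟩ ⟨e', l'⟩ a b a' b' hab h1 h2
      change emb l (K.tri e a) = emb l' (K.tri e' a') at h1
      change emb l (K.tri e b) = emb l' (K.tri e' b') at h2
      by_cases ha : p (K.tri e a) = i
      · have hb : p (K.tri e b) ≠ i := by
          intro hb
          exact hab (hinj e (ha.trans hb.symm))
        obtain ⟨rfl, h3⟩ := hsep l l' _ _ hb h2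
        have h4 := hembinj l h1
        rw [lin.lin e e' a b a' b' hab h4 h3]
      · obtain ⟨rfl, h3⟩ := hsep l l' _ _ ha h1
        have h4 := hembinj l h2
        rw [lin.lin e e' a b a' b' hab h3 h4]
  have hpr1 : ∀ (v : V') k, pr' v = some k → p' v = c k := by
    rintro (⟨v, l⟩ | v) k h
    · exact hpr v.1 k h
    · cases h
  have hpr2 : ∀ (v : V') k, p' v = c k → pr' v = some k := by
    rintro (⟨v, l⟩ | v) k h
    · exact hpr' v.1 k h
    · exact absurd h.symm (hi k)
  refine ⟨⟨K', p', hlin, hpr1, hpr2, ?_, ?_, ?_⟩, ?_⟩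
  · rintro ⟨e, l⟩
    have h1 : (fun j => p' (emb l (K.tri e j))) = fun j => p (K.tri e j) := by
      funext j
      exact hpemb l _
    change (fun j => p' (emb l (K.tri e j))) ∈ C
    rw [h1]
    exact hC e
  · rintro ⟨e, l⟩ a b h
    apply hinj e
    change p' (emb l (K.tri e a)) = p' (emb l (K.tri e b)) at h
    rw [hpemb, hpemb] at h
    exact h
  · rintro ⟨e, l⟩ ⟨e', l'⟩ a a' h hs
    change emb l (K.tri e a) = emb l' (K.tri e' a') at h
    change (pr' (emb l (K.tri e a))).isSome at hs
    by_cases ha : p (K.tri e a) = i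
    · rw [emb1 l _ ha] at hs
      cases hs
    · obtain ⟨rfl, h3⟩ := hsep l l' _ _ ha h
      rw [emb2 l _ ha] at hs
      rw [huniq e e' a a' h3 hs]
  · rintro ⟨χ, h1, h2, h3⟩
    change V' → Fin 3 at χ
    obtain ⟨l, c₀, hl⟩ := hHJ fun g => χ (Sum.inr g)
    apply hA
    refine ⟨fun v => χ (emb l v), ?_, ?_, ?_⟩
    · intro v k hv
      have hv' : p v ≠ i := hne v k hv
      apply h1
      change pr' (emb l v) = some k
      rw [emb2 l v hv']
      exact hv
    · intro e
      exact h2 (e, l)
    · intro v w hvw hS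
      change p v = p w at hvw
      change p v ∈ insert i S at hS
      by_cases hv : p v = i
      · have hw : p w = i := hvw ▸ hv
        change χ (emb l v) = χ (emb l w)
        rw [emb1 l v hv, emb1 l w hw]
        exact (hl ⟨v, hv⟩).trans (hl ⟨w, hw⟩).symm
      · apply h3
        · change p' (emb l v) = p' (emb l w)
          rw [hpemb, hpemb]
          exact hvw
        · change p' (emb l v) ∈ S
          rw [hpemb]
          rcases Finset.mem_insert.1 hS with h | h
          · exact absurd h hv
          · exact h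

open Classical in
theorem exists_empty {C : Set (Fin 3 → T)} {c : Fin 3 → T} (S : Finset T) :
    (∀ k, c k ∉ S) → (∃ A : Sys C c, Good A S) → ∃ A : Sys C c, Good A ∅ := by
  induction S using Finset.induction_on with
  | empty => exact fun _ h => h
  | insert i S hi ih =>
    rintro hS ⟨A, hA⟩
    apply ih
    · intro k hk
      exact hS k (Finset.mem_insert_of_mem hk)
    · apply exists_step A S i _ hA
      intro k hk
      exact hS k (hk ▸ Finset.mem_insert_self i S)

end LinHJ

open LinHJ in
theorem exists_lin {T : Type u} (C : Set (Fin 3 → T)) (hC : C.Finite) (c : Fin 3 → T)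
    (hc : Function.Injective c)
    (hU : ¬ ∃ χ : T → Fin 3, (∀ k, χ (c k) = k) ∧
      ∀ e ∈ C, ¬ Function.Injective fun i => χ (e i)) :
    ∃ (K : Inst) (p : K.V → T), Lin K ∧ ¬ Sat K ∧ (∀ v k, K.pr v = some k → p v = c k) ∧
      (∀ e, (fun i => p (K.tri e i)) ∈ C) ∧
      ∀ e e' i i', K.tri e i = K.tri e' i' → (K.pr (K.tri e i)).isSome → e = e' := by
  obtain ⟨A, S, hS, hA⟩ := exists_start C hC c hc hU
  obtain ⟨B, hB⟩ := exists_empty S hS ⟨A, hA⟩
  refine ⟨B.K, B.p, B.lin, ?_, B.hpr, B.hC, B.huniq⟩
  rintro ⟨χ, h1, h2⟩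
  exact hB ⟨χ, h1, h2, fun v w _ h => absurd h (Finset.notMem_empty _)⟩

end Pool.Agent.SEM
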