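import Mathlib
import Pool.Agent.helper45.Sem.Mem

/-!
# The colouring condition
-/

universe u

open Pool.Agent.helper9.Incl Pool.Agent.helper45.Sem

namespace Pool.Agent.SEM

/-- the colouring condition: if `a * b * c = t` and no product of two of `a, b, c` is `t`, then
`T` has a colouring with three colours, the colours of `a, b, c` being different, such that any
three elements `x, y, z` above `t` with different colours have product `t` -/
def Col (T : Type u) [Semigroup T] : Prop :=
  ∀ a b c t : T, a * b * c = t → a * b ≠ t → b * c ≠ t → a * c ≠ t →
    ∃ χ : T → Fin 3, χ a = 0 ∧ χ b = 1 ∧ χ c = 2 ∧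
      ∀ x y z : T, x * t = t → y * t = t → z * t = t →
        χ x = 0 → χ y = 1 → χ z = 2 → x * y * z = t

end Pool.Agent.SEM
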